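import Pool.Agent.W548.MQ.Stm2

/-!
Elements of even order everywhere are units times squares when the class group has no 2-torsion.
-/

set_option autoImplicit false

open WithZero IsDedekindDomain nonZeroDivisors

namespace Pool.Agent.W67.MQ

universe u w

/-- The order of an integral element is the exponent in the factorization of the ideal. -/
theorem ord_int {B : Type u} [CommRing B] [IsDomain B] [IsDedekindDomain B]
    (L : Type w) [Field L] [Algebra B L] [IsFractionRing B L] (v : HeightOneSpectrum B)
    (f : B) (hf : f ≠ 0) (x : Lˣ) (hx : (x : L) = algebraMap B L f) :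
    W548.MQ.ord (v.valuation L) x =
      ((UniqueFactorizationMonoid.normalizedFactors (Ideal.span {f})).count v.asIdeal : ℤ) := by
  classical
  unfold W548.MQ.ord
  rw [hx, HeightOneSpectrum.valuation_of_algebraMap, HeightOneSpectrum.intValuation_if_neg v hf,
    log_exp, neg_neg, Ideal.count_associates_factors_eq _ v.isPrime v.ne_bot]
  simpa using hf

theorem ord_mul {L : Type w} [Field L] (v : Valuation L ℤᵐ⁰) (a b : Lˣ) :
    W548.MQ.ord v (a * b) = W548.MQ.ord v a + W548.MQ.ord v b := by
  unfold W548.MQ.ord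
  rw [Units.val_mul, map_mul, log_mul ((Valuation.ne_zero_iff v).2 a.ne_zero)
    ((Valuation.ne_zero_iff v).2 b.ne_zero)]
  ring

theorem t_CL1 : W548.MQ.S_CL1.{u, w} := by
  classical
  intro B _ _ _ L _ _ _ hcl d hd
  obtain ⟨a, b, hb, hab⟩ := IsFractionRing.div_surjective B (d : L)
  have hb0 : b ≠ 0 := nonZeroDivisors.ne_zero hb
  have hinj := FaithfulSMul.algebraMap_injective B L
  have hbL : algebraMap B L b ≠ 0 := by
    intro h
    exact hb0 (hinj (by rw [h, map_zero]))
  have ha0 : a ≠ 0 := by
    rintro rfl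
    rw [map_zero, zero_div] at hab
    exact d.ne_zero hab.symm
  have hf0 : a * b ≠ 0 := mul_ne_zero ha0 hb0
  let β : Lˣ := Units.mk0 _ hbL
  have hfd : ((d * (β * β) : Lˣ) : L) = algebraMap B L (a * b) := by
    rw [Units.val_mul, Units.val_mul, ← hab, map_mul]
    change algebraMap B L a / algebraMap B L b * (algebraMap B L b * algebraMap B L b) = _
    field_simp
  have hspan : Ideal.span {a * b} ≠ ⊥ := by simpa using hf0
  obtain ⟨m, hm⟩ := Multiset.exists_smul_of_dvd_count
    (UniqueFactorizationMonoid.normalizedFactors (Ideal.span {a * b})) (k := 2) (by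
      intro P hP
      have hprime : Prime P := UniqueFactorizationMonoid.prime_of_normalized_factor P hP
      let v : HeightOneSpectrum B := ⟨P, Ideal.isPrime_of_prime hprime, hprime.ne_zero⟩
      have h1 := ord_int L v (a * b) hf0 (d * (β * β)) hfd
      rw [ord_mul, ord_mul] at h1
      have h2 : Even (((UniqueFactorizationMonoid.normalizedFactors
          (Ideal.span {a * b})).count v.asIdeal : ℕ) : ℤ) := by
        rw [← h1]
        exact (hd v).add ⟨_, rfl⟩
      have h3 := (Int.even_coe_nat _).1 h2
      exact even_iff_two_dvd.1 h3)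
  have hJ : m.prod ^ 2 = Ideal.span {a * b} := by
    rw [← Multiset.prod_nsmul, ← hm]
    exact Ideal.prod_normalizedFactors_eq_self hspan
  have hJ0 : m.prod ∈ (Ideal B)⁰ := by
    rw [mem_nonZeroDivisors_iff_ne_zero]
    intro h
    rw [h] at hJ
    exact hspan (by rw [← hJ]; simp)
  have hprin : (m.prod).IsPrincipal := by
    rw [← ClassGroup.mk0_eq_one_iff hJ0]
    apply hcl
    rw [← map_pow]
    have h4 : (⟨m.prod, hJ0⟩ : (Ideal B)⁰) ^ 2 = ⟨m.prod ^ 2, pow_mem hJ0 2⟩ := rfl
    rw [h4, ClassGroup.mk0_eq_one_iff, hJ]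
    exact ⟨_, rfl⟩
  obtain ⟨g, hg⟩ := hprin
  have hg' : m.prod = Ideal.span {g} := hg
  rw [hg', Ideal.span_singleton_pow, Ideal.span_singleton_eq_span_singleton] at hJ
  obtain ⟨u, hu⟩ := hJ
  have hg0 : g ≠ 0 := by
    rintro rfl
    apply hf0
    rw [← hu]
    simp
  have hgL : algebraMap B L g ≠ 0 := by
    intro h
    exact hg0 (hinj (by rw [h, map_zero]))
  refine ⟨u, Units.mk0 (algebraMap B L g) hgL / β, ?_⟩
  have h5 : algebraMap B L g ^ 2 * algebraMap B L u = algebraMap B L a * algebraMap B L b := by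
    rw [← map_pow, ← map_mul, hu, map_mul]
  have h6 : ((Units.mk0 (algebraMap B L g) hgL / β : Lˣ) : L) =
      algebraMap B L g / algebraMap B L b := by
    simp [β]
  rw [h6, ← hab]
  field_simp
  rw [← h5]
  ring

end Pool.Agent.W67.MQ
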